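import Mathlib
import Pool.Agent.Helper27_BHT.Stmts

/-! # NCS: Northcott for points of projective space of bounded degree and height -/

open Polynomial NumberField Function

namespace H76BHT

open BHT

theorem place_le (K : Type) [Field K] [NumberField K] (y : K) (v : InfinitePlace K) :
    v y ≤ Height.mulHeight₁ y := by
  classical
  rw [NumberField.mulHeight₁_eq, ← Finset.mul_prod_erase _ _ (Finset.mem_univ v)]
  have h1 : v y ≤ max (v y) 1 ^ v.mult := by
    refine (le_max_left (v y) 1).trans ?_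
    exact le_self_pow₀ (le_max_right _ _) v.mult_ne_zero
  have h2 : (1 : ℝ) ≤ ∏ w ∈ Finset.univ.erase v, max (w y) 1 ^ w.mult := by
    have : (∏ w ∈ Finset.univ.erase v, (1 : ℝ)) ≤ ∏ w ∈ Finset.univ.erase v, max (w y) 1 ^ w.mult :=
      Finset.prod_le_prod (fun w _ => zero_le_one) fun w _ => one_le_pow₀ (le_max_right _ _)
    rwa [Finset.prod_const_one] at this
  have h3 : (1 : ℝ) ≤ ∏ᶠ w : FinitePlace K, max (w y) 1 := one_le_finprod fun _ => le_max_right _ _
  have h0 : 0 ≤ max (v y) 1 ^ v.mult := by positivity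
  calc v y ≤ max (v y) 1 ^ v.mult := h1
    _ = max (v y) 1 ^ v.mult * 1 * 1 := by ring
    _ ≤ _ := by gcongr

/-- the algebraic numbers of bounded degree and height -/
theorem finite_alg (d : ℕ) (X : ℝ) : ∃ S : Set (AlgebraicClosure ℚ), S.Finite ∧
    ∀ (K : Type) [Field K] [NumberField K], Module.finrank ℚ K ≤ d → ∀ y : K,
      Height.mulHeight₁ y ≤ X → ∀ φ : K →+* AlgebraicClosure ℚ, φ y ∈ S := by
  classical
  set B : ℝ := max (X * X) 1 with hB
  obtain ⟨C, hC⟩ : ∃ C : ℕ, ∀ d' ≤ d, B ^ d' * (d'.choose (d' / 2) : ℝ) ≤ C := by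
    refine ⟨⌈B ^ d * 2 ^ d⌉₊, fun d' hd' => (le_trans ?_ (Nat.le_ceil _))⟩
    have h1 : (d'.choose (d' / 2) : ℝ) ≤ 2 ^ d' := by exact_mod_cast Nat.choose_le_two_pow _ _
    have h2 : (1 : ℝ) ≤ B := le_max_right _ _
    calc B ^ d' * (d'.choose (d' / 2) : ℝ) ≤ B ^ d' * 2 ^ d' := by gcongr
      _ ≤ B ^ d * 2 ^ d := by
        gcongr
        norm_num
  have hfin := bUnion_roots_finite (algebraMap ℤ (AlgebraicClosure ℚ)) d
    (Set.finite_Icc (-C : ℤ) C)
  set S₁ : Set (AlgebraicClosure ℚ) := ⋃ (f : ℤ[X]) (_ : f.natDegree ≤ d ∧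
    ∀ i, f.coeff i ∈ Set.Icc (-C : ℤ) C),
      ((f.map (algebraMap ℤ (AlgebraicClosure ℚ))).roots.toFinset : Set (AlgebraicClosure ℚ)) with hS₁
  refine ⟨⋃ n ∈ Finset.range (⌊X⌋₊ + 1), (fun s => s / (n : AlgebraicClosure ℚ)) '' S₁, ?_, ?_⟩
  · exact Set.Finite.biUnion (Finset.finite_toSet _) fun n _ => hfin.image _
  · intro K _ _ hd y hy φ
    obtain ⟨n, hn0, hnX, hint⟩ := exists_nat_le_mulHeight₁ y
    have hX0 : 0 ≤ X := (Nat.cast_nonneg n).trans (hnX.trans hy)
    rw [Set.mem_iUnion₂]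
    refine ⟨n, Finset.mem_range.2 (Nat.lt_succ_of_le (Nat.le_floor (hnX.trans hy))), φ (n * y),
      ?_, ?_⟩
    · have hbd : ∀ ψ : K →+* ℂ, ‖ψ (n * y)‖ ≤ X * X := by
        intro ψ
        have h1 : ‖ψ y‖ ≤ X := by
          have := place_le K y (InfinitePlace.mk ψ)
          rw [InfinitePlace.apply] at this
          exact this.trans hy
        rw [map_mul, norm_mul, map_natCast, Complex.norm_natCast]
        exact mul_le_mul (hnX.trans hy) h1 (norm_nonneg _) hX0
      have hmin := minpoly.isIntegrallyClosed_eq_field_fractions' ℚ hint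
      rw [hS₁, Set.mem_iUnion₂]
      refine ⟨minpoly ℤ ((n : K) * y), ⟨?_, fun i => ?_⟩, ?_⟩
      · rw [← (minpoly.monic hint).natDegree_map (algebraMap ℤ ℚ), ← hmin]
        exact (minpoly.natDegree_le _).trans hd
      · rw [Set.mem_Icc, ← abs_le, ← @Int.cast_le ℝ]
        refine (Eq.trans_le ?_ <| Embeddings.coeff_bdd_of_norm_le hbd i).trans (hC _ hd)
        rw [hmin, coeff_map, eq_intCast, Int.norm_cast_rat, Int.norm_eq_abs, Int.cast_abs]
      · rw [Finset.mem_coe, Multiset.mem_toFinset, mem_roots ((Polynomial.map_ne_zero_iff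
          (algebraMap ℤ (AlgebraicClosure ℚ)).injective_int).2 (minpoly.ne_zero hint)), IsRoot.def,
          eval_map]
        have h1 : Polynomial.aeval ((n : K) * y) (minpoly ℤ ((n : K) * y)) = 0 := minpoly.aeval _ _
        have h2 := congrArg φ h1
        rw [map_zero, Polynomial.aeval_def, Polynomial.hom_eval₂] at h2
        rw [← h2]
        congr 1
        exact RingHom.ext_int _ _
    · show φ (n * y) / (n : AlgebraicClosure ℚ) = φ y
      have : (n : AlgebraicClosure ℚ) ≠ 0 := Nat.cast_ne_zero.2 hn0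
      rw [map_mul, map_natCast]
      field_simp

theorem ncs : NCSStmt := by
  classical
  intro ι _ d X
  obtain ⟨S, hS, hSy⟩ := finite_alg d X
  refine ⟨Fintype.piFinset fun _ => hS.toFinset, ?_⟩
  intro K _ _ hd x hx hX φ
  obtain ⟨i₀, hi₀⟩ := Function.ne_iff.1 hx
  have hi₀' : x i₀ ≠ 0 := hi₀
  refine ⟨fun i => φ (x i / x i₀), ?_, φ (x i₀), (map_ne_zero φ).2 hi₀', fun i => ?_⟩
  · rw [Fintype.mem_piFinset]
    intro i
    rw [Set.Finite.mem_toFinset]
    refine hSy K hd _ ?_ φ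
    rw [Height.mulHeight₁_div_eq_mulHeight]
    have h1 : ![x i, x i₀] = x ∘ ![i, i₀] := by
      ext j
      fin_cases j <;> rfl
    rw [h1]
    exact (Height.mulHeight_comp_le _ _).trans hX
  · rw [← map_mul, mul_div_cancel₀ _ hi₀']

end H76BHT
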