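import Mathlib
import Pool.Agent.Helper27_BHT.Stmts

/-! # T2: bounded height of the torsion parameters -/

open Polynomial NumberField Function

namespace H76BHT

open BHT

theorem raise {κ a l c : ℝ} {N s e M : ℕ} (hκ0 : 0 < κ) (hκ1 : κ ≤ 1) (ha : 0 ≤ a) (hl : 0 ≤ l)
    (hse : s * e = M) (hs : 1 ≤ s)
    (h : (κ * a) ^ (2 * N) * l ^ (2 * s) ≤ c ^ s) :
    (κ ^ M * a ^ e) ^ (2 * N) * l ^ (2 * M) ≤ c ^ M := by
  have heM : e ≤ M := by rw [← hse]; exact Nat.le_mul_of_pos_left _ hs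
  have h1 : κ ^ M ≤ κ ^ e := pow_le_pow_of_le_one hκ0.le hκ1 heM
  calc (κ ^ M * a ^ e) ^ (2 * N) * l ^ (2 * M) ≤ (κ ^ e * a ^ e) ^ (2 * N) * l ^ (2 * M) := by
        gcongr
    _ = ((κ * a) ^ (2 * N) * l ^ (2 * s)) ^ e := by
        rw [← mul_pow, mul_pow ((κ * a) ^ (2 * N)), ← pow_mul, ← pow_mul, ← pow_mul, ← hse]
        congr 1
        · rw [mul_comm e]
        · rw [mul_assoc]
    _ ≤ (c ^ s) ^ e := by gcongr
    _ = c ^ M := by rw [← pow_mul, hse]

/-- the final computation -/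
theorem height_le (K : Type) [Field K] [NumberField K] {ι : Type} [Fintype ι] [Nonempty ι]
    (x : ι → K) (hx : ∀ i, x i ≠ 0) (l c : K) (hl : l ≠ 0) (hc : c ≠ 0) (N M a : ℕ) (hN : 1 ≤ N)
    (κ : ℝ) (hκ : 0 < κ)
    (hinf : ∀ (v : InfinitePlace K) i, (κ ^ M * v (x i)) ^ (2 * N) * v l ^ (2 * M) ≤ v c ^ M)
    (hfin : ∀ (v : FinitePlace K) i,
      ((v 2 ^ a) ^ M * v (x i)) ^ (2 * N) * v l ^ (2 * M) ≤ v c ^ M) :
    Height.mulHeight x ≤ (((2 ^ a / κ) ^ M) : ℝ) ^ Module.finrank ℚ K := by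
  set d := Module.finrank ℚ K with hd
  have hx0 : x ≠ 0 := fun h => hx (Classical.arbitrary ι) (congrFun h _)
  have h2 : (2 : K) ≠ 0 := two_ne_zero
  rw [NumberField.mulHeight_eq hx0]
  -- the archimedean part
  set A : InfinitePlace K → ℝ := fun v => ⨆ i, v (x i) with hA
  set B : FinitePlace K → ℝ := fun v => ⨆ i, v (x i) with hB
  have hA0 : ∀ v, 0 ≤ A v := fun v => Real.iSup_nonneg fun i => apply_nonneg v _
  have hB0 : ∀ v, 0 ≤ B v := fun v => Real.iSup_nonneg fun i => apply_nonneg v _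
  have hAv : ∀ v, (κ ^ M * A v) ^ (2 * N) * v l ^ (2 * M) ≤ v c ^ M := by
    intro v
    obtain ⟨i, hi⟩ := exists_eq_ciSup_of_finite (f := fun i => v (x i))
    rw [hA]
    simp only
    rw [← hi]
    exact hinf v i
  have hBv : ∀ v, ((v 2 ^ a) ^ M * B v) ^ (2 * N) * v l ^ (2 * M) ≤ v c ^ M := by
    intro v
    obtain ⟨i, hi⟩ := exists_eq_ciSup_of_finite (f := fun i => v (x i))
    rw [hB]
    simp only
    rw [← hi]
    exact hfin v i
  have sx : B.HasFiniteMulSupport := .iSup (fun i => FinitePlace.hasFiniteMulSupport (hx i))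
  have s2 : (fun v : FinitePlace K => v (2 : K)).HasFiniteMulSupport :=
    FinitePlace.hasFiniteMulSupport h2
  have sl : (fun v : FinitePlace K => v l).HasFiniteMulSupport :=
    FinitePlace.hasFiniteMulSupport hl
  have sc : (fun v : FinitePlace K => v c).HasFiniteMulSupport :=
    FinitePlace.hasFiniteMulSupport hc
  have hmult : ∑ v : InfinitePlace K, v.mult = d := InfinitePlace.sum_mult_eq
  set PA : ℝ := ∏ v : InfinitePlace K, A v ^ v.mult with hPA
  set PB : ℝ := ∏ᶠ v : FinitePlace K, B v with hPB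
  set T : ℝ := ∏ᶠ v : FinitePlace K, v (2 : K) with hT
  have hpl := prod_abs_eq_one hl
  have hpc := prod_abs_eq_one hc
  have hp2 := prod_abs_eq_one h2
  set L1 : ℝ := ∏ w : InfinitePlace K, w l ^ w.mult with hL1
  set L2 : ℝ := ∏ᶠ w : FinitePlace K, w l with hL2
  set C1 : ℝ := ∏ w : InfinitePlace K, w c ^ w.mult with hC1
  set C2 : ℝ := ∏ᶠ w : FinitePlace K, w c with hC2
  have hPA0 : 0 ≤ PA := Finset.prod_nonneg fun v _ => pow_nonneg (hA0 v) _
  have hPB0 : 0 ≤ PB := finprod_nonneg fun v => hB0 v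
  have hL10 : 0 ≤ L1 := Finset.prod_nonneg fun v _ => pow_nonneg (apply_nonneg v _) _
  have hL20 : 0 ≤ L2 := finprod_nonneg fun v => apply_nonneg v _
  have hC10 : 0 ≤ C1 := Finset.prod_nonneg fun v _ => pow_nonneg (apply_nonneg v _) _
  have hT0 : 0 ≤ T := finprod_nonneg fun v => apply_nonneg v _
  have harch : ((κ ^ M) ^ (2 * N)) ^ d * PA ^ (2 * N) * L1 ^ (2 * M) ≤ C1 ^ M := by
    have e1 : ((κ ^ M) ^ (2 * N)) ^ d * PA ^ (2 * N) * L1 ^ (2 * M) =
        ∏ v : InfinitePlace K, ((κ ^ M * A v) ^ (2 * N) * v l ^ (2 * M)) ^ v.mult := by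
      rw [hPA, hL1, ← hmult, ← Finset.prod_pow_eq_pow_sum, ← Finset.prod_pow, ← Finset.prod_pow,
        ← Finset.prod_mul_distrib, ← Finset.prod_mul_distrib]
      refine Finset.prod_congr rfl fun v _ => ?_
      rw [mul_pow (κ ^ M), mul_pow, mul_pow, ← pow_mul, ← pow_mul, ← pow_mul, ← pow_mul, ← pow_mul,
        ← pow_mul, mul_comm v.mult, mul_comm v.mult]
    have e2 : C1 ^ M = ∏ v : InfinitePlace K, (v c ^ M) ^ v.mult := by
      rw [hC1, ← Finset.prod_pow]
      refine Finset.prod_congr rfl fun v _ => ?_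
      rw [← pow_mul, ← pow_mul, mul_comm]
    rw [e1, e2]
    refine Finset.prod_le_prod (fun v _ => ?_) fun v _ => ?_
    · have := hA0 v
      positivity
    · have := hA0 v
      exact pow_le_pow_left₀ (by positivity) (hAv v) _
  have hfinp : ((T ^ a) ^ M) ^ (2 * N) * PB ^ (2 * N) * L2 ^ (2 * M) ≤ C2 ^ M := by
    have e1 : ((T ^ a) ^ M) ^ (2 * N) * PB ^ (2 * N) * L2 ^ (2 * M) =
        ∏ᶠ v : FinitePlace K, (((v 2 ^ a) ^ M * B v) ^ (2 * N) * v l ^ (2 * M)) := by
      rw [finprod_mul_distrib (by fun_prop) (by fun_prop), ← finprod_pow (by fun_prop),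
        finprod_mul_distrib (by fun_prop) (by fun_prop), ← finprod_pow (by fun_prop),
        ← finprod_pow (by fun_prop), ← finprod_pow (by fun_prop), mul_pow]
    have e2 : C2 ^ M = ∏ᶠ v : FinitePlace K, v c ^ M := by
      rw [hC2, ← finprod_pow (by fun_prop)]
    rw [e1, e2]
    refine finprod_le_finprod (by fun_prop) (fun v => ?_) (by fun_prop) (fun v => hBv v)
    have := hB0 v
    positivity
  have hT2 : (2 : ℝ) ^ d * T = 1 := by
    rw [← hp2]
    congr 1
    rw [← hmult, ← Finset.prod_pow_eq_pow_sum]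
    refine Finset.prod_congr rfl fun v _ => ?_
    congr 1
    rw [← InfinitePlace.norm_embedding_eq, map_ofNat]
    exact (Complex.norm_ofNat 2).symm
  have hTeq : T = 1 / 2 ^ d := by
    field_simp
    linarith
  have hmul := mul_le_mul harch hfinp (by positivity) (by positivity)
  have hrhs : C1 ^ M * C2 ^ M = 1 := by rw [← mul_pow, hpc, one_pow]
  have hlhs : ((κ ^ M) ^ (2 * N)) ^ d * PA ^ (2 * N) * L1 ^ (2 * M) *
      (((T ^ a) ^ M) ^ (2 * N) * PB ^ (2 * N) * L2 ^ (2 * M)) =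
      ((κ ^ M) ^ d * (T ^ a) ^ M * (PA * PB)) ^ (2 * N) := by
    calc _ = ((κ ^ M) ^ (2 * N)) ^ d * ((T ^ a) ^ M) ^ (2 * N) * (PA * PB) ^ (2 * N) *
          (L1 * L2) ^ (2 * M) := by rw [mul_pow PA, mul_pow L1]; ring
      _ = _ := by
        rw [hpl, one_pow, mul_one]
        generalize κ ^ M = q
        generalize (T ^ a) ^ M = t
        generalize PA * PB = z
        ring
  rw [hlhs, hrhs] at hmul
  have h3 : (κ ^ M) ^ d * (T ^ a) ^ M * (PA * PB) ≤ 1 := by
    by_contra hcon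
    push Not at hcon
    exact absurd hmul (not_le.2 (one_lt_pow₀ hcon (by omega)))
  rw [hTeq] at h3
  have h4 : (κ ^ M) ^ d * ((1 / 2 ^ d : ℝ) ^ a) ^ M * (PA * PB) =
      (PA * PB) / (((2 ^ a / κ) ^ M) : ℝ) ^ d := by
    have e1 : (((2 ^ a / κ) ^ M) : ℝ) ^ d = 2 ^ (a * M * d) / κ ^ (M * d) := by
      rw [div_pow, div_pow, ← pow_mul, ← pow_mul, ← pow_mul, mul_assoc]
    have e2 : ((1 / 2 ^ d : ℝ) ^ a) ^ M = 1 / 2 ^ (a * M * d) := by
      rw [div_pow, div_pow, one_pow, one_pow, ← pow_mul, ← pow_mul]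
      congr 2
      ring
    rw [e1, e2, ← pow_mul]
    field_simp
  rw [h4, div_le_one (by positivity)] at h3
  exact h3

theorem t2 (h1 : H1Stmt) (h2 : H2KStmt) : T2Stmt := by
  intro m hm
  obtain ⟨κ, hκ, hH1⟩ := h1 m (by omega)
  obtain ⟨a, hH2⟩ := h2 m (by omega)
  set M := (2 * m).factorial with hM
  refine ⟨((2 ^ a / min κ 1) ^ M : ℝ), ?_⟩
  intro K _ _ r hr hdeg hpell
  obtain ⟨N, u, w, c, hc, hw, hu, hN⟩ := hpell
  have hfd : (X ^ (2 * m) + r).natDegree = 2 * m := by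
    rw [natDegree_add_eq_left_of_natDegree_lt] <;> rw [natDegree_X_pow]
    omega
  have hf0 : (X ^ (2 * m) + r) ≠ 0 := by
    intro h
    rw [h, natDegree_zero] at hfd
    omega
  -- the degree of `u` is positive
  have hud : u.natDegree ≠ 0 := by
    intro h0
    have e1 : (X ^ (2 * m) + r) * w ^ 2 = u ^ 2 - C c := by rw [← hu]; ring
    have e2 : ((X ^ (2 * m) + r) * w ^ 2).natDegree = 2 * m + 2 * w.natDegree := by
      rw [natDegree_mul hf0 (pow_ne_zero _ hw), natDegree_pow, hfd]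
    have e3 : (u ^ 2 - C c).natDegree = 0 := by
      rw [natDegree_sub_C, natDegree_pow, h0]
    rw [e1, e3] at e2
    omega
  have hl : u.leadingCoeff ≠ 0 := by
    rw [Ne, leadingCoeff_eq_zero]
    rintro rfl
    exact hud natDegree_zero
  have hκ' : 0 < min κ 1 := lt_min hκ one_pos
  have hfact : ∀ j : Fin m, (2 * m - j) * (M / (2 * m - j)) = M := by
    intro j
    have := j.2
    exact Nat.mul_div_cancel' (Nat.dvd_factorial (by omega) (by omega))
  set x : Fin m → K := fun j => r.coeff j ^ (M / (2 * m - j)) with hx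
  show Height.mulHeight x ≤ _
  rw [Height.mulHeight_eq_mulHeight_restrict_support]
  have hnon : Nonempty x.support := by
    by_contra hcon
    apply hr
    ext j
    rw [coeff_zero]
    by_cases hj : j < m
    · by_contra hne
      apply hcon
      refine ⟨⟨⟨j, hj⟩, ?_⟩⟩
      rw [Function.mem_support]
      exact pow_ne_zero _ hne
    · exact coeff_eq_zero_of_natDegree_lt (by omega)
  have := Fintype.ofFinite x.support
  refine height_le K (fun i : x.support => x i) (fun i => i.2) u.leadingCoeff c hl hc u.natDegree M a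
    (by omega) (min κ 1) hκ' ?_ ?_
  · intro v i
    have hφ := hH1 (r.map v.embedding) (u.map v.embedding) (w.map v.embedding) (v.embedding c)
      ((Polynomial.map_ne_zero_iff v.embedding.injective).2 hr) (by rwa [natDegree_map])
      ((_root_.map_ne_zero _).2 hc) ((Polynomial.map_ne_zero_iff v.embedding.injective).2 hw)
      (by
        have := congrArg (Polynomial.map v.embedding) hu
        simpa using this) i.1 i.1.2
    rw [natDegree_map, leadingCoeff_map, coeff_map, InfinitePlace.norm_embedding_eq,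
      InfinitePlace.norm_embedding_eq, InfinitePlace.norm_embedding_eq] at hφ
    show (min κ 1 ^ M * v (r.coeff i.1 ^ (M / (2 * m - i.1)))) ^ (2 * u.natDegree) *
      v u.leadingCoeff ^ (2 * M) ≤ v c ^ M
    rw [map_pow]
    refine raise hκ' (min_le_right _ _) (apply_nonneg _ _) (apply_nonneg _ _) (hfact i.1)
      (by have := i.1.2; omega) (le_trans ?_ hφ)
    have : 0 ≤ v (r.coeff i.1) := apply_nonneg _ _
    have : 0 ≤ v u.leadingCoeff := apply_nonneg _ _
    gcongr
    exact min_le_left _ _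
  · intro v i
    have hφ := hH2 K v r u w c hr hdeg hc hw hu i.1 i.1.2
    show ((v 2 ^ a) ^ M * v (r.coeff i.1 ^ (M / (2 * m - i.1)))) ^ (2 * u.natDegree) *
      v u.leadingCoeff ^ (2 * M) ≤ v c ^ M
    rw [map_pow]
    have h20 : (0 : ℝ) < v 2 := by
      have : v (2 : K) ≠ 0 := (_root_.map_ne_zero v).2 two_ne_zero
      exact lt_of_le_of_ne (apply_nonneg _ _) (Ne.symm this)
    have h21 : v (2 : K) ≤ 1 := by
      have hna : IsNonarchimedean (v ·) := FinitePlace.add_le v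
      have := IsNonarchimedean.apply_intCast_le_one (n := 2) hna
      simpa using this
    exact raise (pow_pos h20 a) (pow_le_one₀ h20.le h21) (apply_nonneg _ _) (apply_nonneg _ _)
      (hfact i.1) (by have := i.1.2; omega) hφ

end H76BHT
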